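import Pool.Agent.Helper7.HL.Stmts

set_option autoImplicit false

/-!
Row CO of the project HL (Haglund's conjecture for large `k`): columns and rows of a partition.
-/

namespace Pool.Agent.Helper7.HL

open Finset MvPolynomial
open Pool.Agent.Helper32.HG

/-- length of the column `j` -/
def co_c {n : ℕ} (lam : Fin n → ℕ) (j : ℕ) : ℕ :=
  (univ.filter (fun i : Fin n => j < lam i)).card

theorem co_cols {n : ℕ} (lam : Fin n → ℕ) :
    cols lam = (List.range n).map (co_c lam) := rfl

theorem co_c_le {n : ℕ} (lam : Fin n → ℕ) (j : ℕ) : co_c lam j ≤ n := by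
  unfold co_c
  exact (Finset.card_filter_le _ _).trans (by rw [Finset.card_univ, Fintype.card_fin])

theorem co_anti {n : ℕ} (lam : Fin n → ℕ) {j j' : ℕ} (h : j ≤ j') :
    co_c lam j' ≤ co_c lam j := by
  unfold co_c
  apply Finset.card_le_card
  intro i hi
  rw [Finset.mem_filter] at hi ⊢
  exact ⟨hi.1, lt_of_le_of_lt h hi.2⟩

/-- the key: `i < c_j` iff `j < lam i` -/
theorem co_iff {n : ℕ} (lam : Fin n → ℕ) (ha : Antitone lam) (i : Fin n) (j : ℕ) :
    i.val < co_c lam j ↔ j < lam i := by
  unfold co_c
  constructor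
  · intro h
    by_contra hn
    have hsub : univ.filter (fun i' : Fin n => j < lam i') ⊆ Finset.Iio i := by
      intro i' hi'
      rw [Finset.mem_filter] at hi'
      rw [Finset.mem_Iio]
      by_contra hle
      have h1 := ha (not_lt.mp hle)
      exact hn (lt_of_lt_of_le hi'.2 h1)
    have h2 := Finset.card_le_card hsub
    rw [Fin.card_Iio] at h2
    omega
  · intro h
    have hsub : Finset.Iic i ⊆ univ.filter (fun i' : Fin n => j < lam i') := by
      intro i' hi'
      rw [Finset.mem_Iic] at hi'
      rw [Finset.mem_filter]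
      exact ⟨Finset.mem_univ _, lt_of_lt_of_le h (ha hi')⟩
    have h2 := Finset.card_le_card hsub
    rw [Fin.card_Iic] at h2
    omega

/-- the number of boxes of column `j` below row `i` -/
theorem co_leg {n : ℕ} (lam : Fin n → ℕ) (ha : Antitone lam) (i : Fin n) (j : ℕ)
    (h : j < lam i) :
    (univ.filter (fun i' : Fin n => i < i' ∧ j < lam i')).card + 1 = co_c lam j - i.val := by
  have h1 : univ.filter (fun i' : Fin n => j < lam i') =
      Finset.Iic i ∪ univ.filter (fun i' : Fin n => i < i' ∧ j < lam i') := by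
    ext i'
    rw [Finset.mem_filter, Finset.mem_union, Finset.mem_Iic, Finset.mem_filter]
    constructor
    · intro h'
      rcases le_or_gt i' i with h2 | h2
      · exact Or.inl h2
      · exact Or.inr ⟨h'.1, h2, h'.2⟩
    · rintro (h' | h')
      · exact ⟨Finset.mem_univ _, lt_of_lt_of_le h (ha h')⟩
      · exact ⟨h'.1, h'.2.2⟩
  have hdis : Disjoint (Finset.Iic i)
      (univ.filter (fun i' : Fin n => i < i' ∧ j < lam i')) := by
    rw [Finset.disjoint_left]
    intro x hx hx'
    rw [Finset.mem_Iic] at hx
    rw [Finset.mem_filter] at hx'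
    exact absurd hx'.2.1 (not_lt.mpr hx)
  have h2 : co_c lam j = (i.val + 1) +
      (univ.filter (fun i' : Fin n => i < i' ∧ j < lam i')).card := by
    unfold co_c
    rw [h1, Finset.card_union_of_disjoint hdis, Fin.card_Iic]
  omega

theorem co_rowl {n : ℕ} (lam : Fin n → ℕ) (ha : Antitone lam) (i : Fin n) (a m : ℕ) :
    ((List.range' a m).map (co_c lam)).countP (fun c => decide (i.val < c)) =
      min (lam i) (a + m) - a := by
  induction m generalizing a with
  | zero => simp
  | succ m ih =>
    rw [List.range'_succ, List.map_cons, List.countP_cons, ih (a + 1)]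
    by_cases h : a < lam i
    · rw [if_pos (by simpa using (co_iff lam ha i a).mpr h)]
      omega
    · rw [if_neg (by simpa using fun h' => h ((co_iff lam ha i a).mp h'))]
      omega

theorem co_rowl' {n N : ℕ} (lam : Fin n → ℕ) (ha : Antitone lam) (i : Fin N) (hi : i.val < n)
    (a m : ℕ) :
    rowl N ((List.range' a m).map (co_c lam)) i = min (lam ⟨i.val, hi⟩) (a + m) - a := by
  have := co_rowl lam ha ⟨i.val, hi⟩ a m
  exact this

theorem co_clf {n : ℕ} (lam : Fin n → ℕ) (K : Type) [Field K] (q t : K) (a m : ℕ) :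
    clf q t ((List.range' a m).map (co_c lam)) =
      ∏ j ∈ Finset.range m, ∏ i : Fin (co_c lam (a + j)),
        (1 - t * q ^ (rowl (co_c lam (a + j))
          ((List.range' (a + j + 1) (m - j - 1)).map (co_c lam)) i) *
          t ^ (dl (co_c lam (a + j)) i)) := by
  induction m generalizing a with
  | zero => simp [clf]
  | succ m ih =>
    rw [List.range'_succ, List.map_cons, clf, ih (a + 1), Finset.prod_range_succ']
    rw [mul_comm]
    congr 1
    refine Finset.prod_congr rfl ?_
    intro j _
    have e1 : a + 1 + j = a + (j + 1) := by omega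
    have e2 : m - j - 1 = m + 1 - (j + 1) - 1 := by omega
    rw [e1, e2]

theorem co_sum_list (f : ℕ → ℕ) (m : ℕ) :
    ((List.range m).map f).sum = ∑ j ∈ Finset.range m, f j := by
  induction m with
  | zero => simp
  | succ m ih =>
    rw [List.range_succ, List.map_append, List.sum_append, ih, Finset.sum_range_succ]
    simp

theorem co_total {n : ℕ} (lam : Fin n → ℕ) (hle : ∀ i, lam i ≤ n) :
    ∑ j ∈ Finset.range n, co_c lam j = ∑ i, lam i := by
  unfold co_c
  simp only [Finset.card_filter]
  rw [Finset.sum_comm]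
  refine Finset.sum_congr rfl ?_
  intro i _
  rw [← Finset.card_filter]
  have : (Finset.range n).filter (fun j => j < lam i) = Finset.range (lam i) := by
    ext j
    rw [Finset.mem_filter, Finset.mem_range, Finset.mem_range]
    have := hle i
    omega
  rw [this, Finset.card_range]

/-- one column -/
theorem co_column {n : ℕ} (lam : Fin n → ℕ) (ha : Antitone lam) (hle : ∀ i, lam i ≤ n)
    (K : Type) [Field K] (q t : K) (j : ℕ) (hj : j < n) :
    ∏ i : Fin (co_c lam (0 + j)), (1 - t * q ^ (rowl (co_c lam (0 + j))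
          ((List.range' (0 + j + 1) (n - j - 1)).map (co_c lam)) i) *
          t ^ (dl (co_c lam (0 + j)) i)) =
      ∏ i ∈ univ.filter (fun i : Fin n => j < lam i), (1 - q ^ (lam i - j - 1) *
        t ^ ((univ.filter (fun i' : Fin n => i < i' ∧ j < lam i')).card + 1)) := by
  rw [Nat.zero_add]
  have hc := co_c_le lam j
  refine Finset.prod_bij (fun i _ => Fin.castLE hc i) ?_ ?_ ?_ ?_
  · intro i _
    rw [Finset.mem_filter]
    exact ⟨Finset.mem_univ _, (co_iff lam ha (Fin.castLE hc i) j).mp i.isLt⟩
  · intro i _ i' _ h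
    exact Fin.castLE_injective hc h
  · intro b hb
    rw [Finset.mem_filter] at hb
    exact ⟨⟨b.val, (co_iff lam ha b j).mpr hb.2⟩, Finset.mem_univ _, rfl⟩
  · intro i _
    have hlt : j < lam (Fin.castLE hc i) := (co_iff lam ha (Fin.castLE hc i) j).mp i.isLt
    have hin : i.val < n := lt_of_lt_of_le i.isLt hc
    rw [co_rowl' lam ha i hin, co_leg lam ha (Fin.castLE hc i) j hlt]
    have e0 : lam ⟨i.val, hin⟩ = lam (Fin.castLE hc i) := rfl
    rw [e0]
    have e1 : min (lam (Fin.castLE hc i)) (j + 1 + (n - j - 1)) - (j + 1) =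
        lam (Fin.castLE hc i) - j - 1 := by
      have := hle (Fin.castLE hc i)
      omega
    have e2 : co_c lam j - (Fin.castLE hc i).val = dl (co_c lam j) i + 1 := by
      unfold dl
      have := i.isLt
      have h3 : (Fin.castLE hc i).val = i.val := rfl
      rw [h3]
      omega
    rw [e1, e2, pow_succ]
    ring

theorem st_CO : ST_CO := by
  intro n lam hlam
  obtain ⟨ha, hs⟩ := (mem_parts lam).1 hlam
  have hle : ∀ i, lam i ≤ n := by
    intro i
    rw [← hs]
    exact Finset.single_le_sum (f := lam) (fun _ _ => Nat.zero_le _) (Finset.mem_univ i)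
  refine ⟨?_, ?_, ?_, ?_, ?_⟩
  · unfold Dec
    rw [co_cols, List.pairwise_map]
    refine List.Pairwise.imp ?_ (List.pairwise_lt_range (n := n))
    intro x y hxy
    exact co_anti lam hxy.le
  · intro c hc
    rw [co_cols, List.mem_map] at hc
    obtain ⟨j, _, rfl⟩ := hc
    exact co_c_le lam j
  · rw [co_cols, co_sum_list, co_total lam hle, hs]
  · funext i
    rw [co_cols, List.range_eq_range', co_rowl' lam ha i i.isLt]
    have := hle i
    show min (lam i) (0 + n) - 0 = lam i
    omega
  · intro K _ q t
    rw [co_cols, List.range_eq_range', co_clf]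
    rw [Finset.prod_congr rfl (fun j hj => co_column lam ha hle K q t j (Finset.mem_range.mp hj))]
    have h1 : ∀ (G : ℕ → Fin n → K), ∏ j ∈ Finset.range n,
        ∏ i ∈ univ.filter (fun i : Fin n => j < lam i), G j i =
        ∏ i : Fin n, ∏ j ∈ Finset.range (lam i), G j i := by
      intro G
      refine Finset.prod_comm' ?_
      intro j i
      rw [Finset.mem_range, Finset.mem_filter, Finset.mem_range]
      have := hle i
      constructor
      · rintro ⟨_, _, h⟩
        exact ⟨h, Finset.mem_univ _⟩
      · rintro ⟨h, _⟩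
        exact ⟨by omega, Finset.mem_univ _, h⟩
    exact h1 (fun j i => (1 - q ^ (lam i - j - 1) *
        t ^ ((univ.filter (fun i' : Fin n => i < i' ∧ j < lam i')).card + 1)))

end Pool.Agent.Helper7.HL
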